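import Pool.Agent.H13.OrderedRamseyFinal

/-!
# Ordered Ramsey numbers of typical ordered matchings versus the triangle

For every `k ≥ 2` and every `ε < 1/2` there is a constant `C` such that almost every ordered
matching `M` on `n` vertices with interval chromatic number `k` satisfies
`r_<(M, K_3) ≤ C n^(2 - ε)`. (In fact the bound `C n^(3/2) log n` is proved, as
`Pool.Agent.H13.main_log`.)

Sketch of the proof. Suppose a colouring of the complete graph on `[N]` has no blue triangle and
no red copy of `M`.
* Every vertex has fewer than `n` blue neighbours (a blue neighbourhood is a red clique).
* If `n` disjoint intervals each contained a blue edge, one could place the `i`-th vertex of `M` in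
  the `i`-th interval and find all edges of `M` red, as there is no blue triangle. So all but
  fewer than `n` of the aligned cells of length `2 r`, where `r = ⌊√n⌋`, are red cliques.
* Cut the vertices of `M` into groups of `r` consecutive ones and the red cells into as many
  windows; place every group, as an interval, in a cell of its window at some offset. Two groups
  are joined by only `O(log n)` edges of `M` for a typical `M` (switching argument), so the
  number of blue conflicts leaving a group is small compared with the square of the number of its
  places, and the local counting lemma `exists_transversal` gives a placement without conflicts.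
-/

namespace Pool.Agent.Results.MP_075e78_co.RohatgiConjecture

open Pool.Agent.H13

theorem result (k : ℕ) (hk : 2 ≤ k) (ε : ℝ) (hε : ε < 1 / 2) :
    ∃ C : ℝ, 0 < C ∧ AlmostEveryMatching k (fun n M =>
      (orderedRamsey M (⊤ : SimpleGraph (Fin 3)) : ℝ) ≤ C * (n : ℝ) ^ (2 - ε)) :=
  main_rpow k hk ε hε

end Pool.Agent.Results.MP_075e78_co.RohatgiConjecture
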